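import Pool.Agent.W787.QC.Defs

/-!
# Project QC, part M2: mass of the perturbed two-bubble profile
-/

set_option autoImplicit false

open MeasureTheory Set Metric Filter Topology Real
open scoped ContDiff

noncomputable section

namespace Pool.Agent.W19.QC

open Pool.Agent.W787.QC

theorem norm_e0 : ‖e0‖ = 1 := by
  unfold e0
  simp

theorem bub_nonneg (s : ℝ) (p y : E) : 0 ≤ 96 * s ^ 4 / (s ^ 2 + ‖y - p‖ ^ 2) ^ 4 := by
  positivity

theorem one_bub (h1 : ∀ (s : ℝ) (p : E), 0 < s →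
      Integrable (fun y : E => 96 * s ^ 4 / (s ^ 2 + ‖y - p‖ ^ 2) ^ 4) ∧
      ∫ y : E, 96 * s ^ 4 / (s ^ 2 + ‖y - p‖ ^ 2) ^ 4 = 16 * π ^ 2)
    (s : ℝ) (hs : 0 < s) (p : E) (hp : ‖p‖ = 1) (η : ℝ)
    (h2 : 16 * π ^ 2 - η ≤ ∫ y in ball p 1, 96 * s ^ 4 / (s ^ 2 + ‖y - p‖ ^ 2) ^ 4)
    (r : ℝ) (hr : 2 ≤ r) :
    16 * π ^ 2 - η ≤ (∫ y in ball (0 : E) r, 96 * s ^ 4 / (s ^ 2 + ‖y - p‖ ^ 2) ^ 4) ∧
      (∫ y in ball (0 : E) r, 96 * s ^ 4 / (s ^ 2 + ‖y - p‖ ^ 2) ^ 4) ≤ 16 * π ^ 2 := by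
  obtain ⟨hi, he⟩ := h1 s p hs
  constructor
  · refine h2.trans (setIntegral_mono_set hi.integrableOn
      (Eventually.of_forall fun y => bub_nonneg s p y) ?_)
    refine LE.le.eventuallyLE ?_
    intro y hy
    rw [mem_ball, dist_eq_norm] at hy
    rw [mem_ball_zero_iff]
    calc ‖y‖ = ‖(y - p) + p‖ := by rw [sub_add_cancel]
      _ ≤ ‖y - p‖ + ‖p‖ := norm_add_le _ _
      _ < 1 + 1 := by rw [hp]; linarith
      _ ≤ r := by linarith
  · rw [← he]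
    exact setIntegral_le_integral hi (Eventually.of_forall fun y => bub_nonneg s p y)

theorem m2 (h : S_MASS) : S_M2 := by
  intro g R ε hg hR hε
  obtain ⟨h1, h2⟩ := h
  obtain ⟨s1, hs1, h2⟩ := h2 (ε / 4) (by positivity)
  obtain ⟨K, hK⟩ := (isCompact_closedBall (0 : E) R).exists_bound_of_continuousOn hg.continuousOn
  obtain ⟨V, hV⟩ : ∃ V : ℝ, V = (volume (ball (0 : E) R)).toReal := ⟨_, rfl⟩
  have hV0 : 0 ≤ V := by
    rw [hV]
    exact ENNReal.toReal_nonneg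
  have hden : 0 < 4 * (|K| * V + 1) := by positivity
  refine ⟨min (min s1 1) (ε / (4 * (|K| * V + 1))),
    lt_min (lt_min hs1 one_pos) (div_pos hε hden), ?_⟩
  intro s hs hss r hr hrR
  have a1 : s < s1 := hss.trans_le ((min_le_left _ _).trans (min_le_left _ _))
  have a2 : s < 1 := hss.trans_le ((min_le_left _ _).trans (min_le_right _ _))
  have a3 : s < ε / (4 * (|K| * V + 1)) := hss.trans_le (min_le_right _ _)
  have hn2 : ‖-e0‖ = 1 := by rw [norm_neg, norm_e0]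
  have hA := one_bub h1 s hs e0 norm_e0 (ε / 4) (h2 s hs a1 e0) r hr
  have hB := one_bub h1 s hs (-e0) hn2 (ε / 4) (h2 s hs a1 (-e0)) r hr
  have e1 : ∀ y : E, y + e0 = y - -e0 := fun y => by rw [sub_neg_eq_add]
  simp only [e1]
  have iA : IntegrableOn (fun y : E => 96 * s ^ 4 / (s ^ 2 + ‖y - e0‖ ^ 2) ^ 4) (ball (0 : E) r) :=
    (h1 s e0 hs).1.integrableOn
  have iB : IntegrableOn (fun y : E => 96 * s ^ 4 / (s ^ 2 + ‖y - -e0‖ ^ 2) ^ 4)
      (ball (0 : E) r) := (h1 s (-e0) hs).1.integrableOn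
  have iG : IntegrableOn (fun y : E => s ^ 4 * g y) (ball (0 : E) r) := by
    have hc : Continuous fun y : E => s ^ 4 * g y := continuous_const.mul hg
    exact (hc.continuousOn.integrableOn_compact (isCompact_closedBall (0 : E) r)).mono_set
      ball_subset_closedBall
  have k1 : ∫ y in ball (0 : E) r, (96 * s ^ 4 / (s ^ 2 + ‖y - e0‖ ^ 2) ^ 4
      + 96 * s ^ 4 / (s ^ 2 + ‖y - -e0‖ ^ 2) ^ 4 + s ^ 4 * g y) =
      (∫ y in ball (0 : E) r, (96 * s ^ 4 / (s ^ 2 + ‖y - e0‖ ^ 2) ^ 4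
      + 96 * s ^ 4 / (s ^ 2 + ‖y - -e0‖ ^ 2) ^ 4)) + ∫ y in ball (0 : E) r, s ^ 4 * g y :=
    integral_add (iA.add iB) iG
  have k2 : ∫ y in ball (0 : E) r, (96 * s ^ 4 / (s ^ 2 + ‖y - e0‖ ^ 2) ^ 4
      + 96 * s ^ 4 / (s ^ 2 + ‖y - -e0‖ ^ 2) ^ 4) =
      (∫ y in ball (0 : E) r, 96 * s ^ 4 / (s ^ 2 + ‖y - e0‖ ^ 2) ^ 4) +
      ∫ y in ball (0 : E) r, 96 * s ^ 4 / (s ^ 2 + ‖y - -e0‖ ^ 2) ^ 4 := integral_add iA iB
  rw [k1, k2]
  have hG : ‖∫ y in ball (0 : E) r, s ^ 4 * g y‖ ≤ s ^ 4 * |K| * (volume (ball (0 : E) r)).toReal := by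
    refine norm_setIntegral_le_of_norm_le_const measure_ball_lt_top ?_
    intro y hy
    rw [norm_mul, Real.norm_eq_abs, abs_of_nonneg (by positivity)]
    refine mul_le_mul_of_nonneg_left ((hK y ?_).trans (le_abs_self K)) (by positivity)
    rw [mem_closedBall]
    rw [mem_ball] at hy
    linarith
  have hVr : (volume (ball (0 : E) r)).toReal ≤ V := by
    rw [hV]
    exact ENNReal.toReal_mono measure_ball_lt_top.ne (measure_mono (ball_subset_ball hrR))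
  have hs4 : s ^ 4 ≤ s := by
    calc s ^ 4 ≤ s ^ 1 := pow_le_pow_of_le_one hs.le a2.le (by norm_num)
      _ = s := pow_one s
  have hG2 : ‖∫ y in ball (0 : E) r, s ^ 4 * g y‖ ≤ ε / 4 := by
    refine hG.trans ?_
    calc s ^ 4 * |K| * (volume (ball (0 : E) r)).toReal ≤ s * |K| * V := by
          refine mul_le_mul (mul_le_mul_of_nonneg_right hs4 (abs_nonneg _)) hVr
            ENNReal.toReal_nonneg (by positivity)
      _ = s * (|K| * V) := by ring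
      _ ≤ s * (|K| * V + 1) := mul_le_mul_of_nonneg_left (by linarith) hs.le
      _ ≤ ε / 4 := by
          rw [lt_div_iff₀ hden] at a3
          linarith
  rw [Real.norm_eq_abs] at hG2
  have hG3 := abs_le.1 hG2
  rw [abs_le]
  constructor <;> linarith [hA.1, hA.2, hB.1, hB.2, hG3.1, hG3.2]

end Pool.Agent.W19.QC
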